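import Mathlib

namespace Pool.Agent.Results.MP_a41668_al.Counter

/-- quandle axioms -/
def IsQuandle {X : Type} (op : X → X → X) : Prop :=
  (∀ x, op x x = x) ∧ (∀ y, Function.Bijective fun x => op x y) ∧
    ∀ x y z, op (op x y) z = op (op x z) (op y z)

/-- the group generated by the maps `S_y` acts transitively -/
def AlgConn {X : Type} (op : X → X → X) : Prop :=
  ∀ x x', ∃ g ∈ Subgroup.closure {g : Equiv.Perm X | ∃ y, ∀ z, g z = op z y}, g x = x'

def op (p q : ℝ × ℝ × ℝ) : ℝ × ℝ × ℝ :=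
  (2 * q.1 - p.1, 2 * q.2.1 - p.2.1, p.2.2 - (p.1 * q.2.1 - p.2.1 * q.1))

lemma inv (q p : ℝ × ℝ × ℝ) : op (op p q) q = p := by
  simp only [op, Prod.ext_iff]; refine ⟨?_, ?_, ?_⟩ <;> ring

lemma tr (δ : ℝ) (p : ℝ × ℝ × ℝ) :
    op (op (op (op p (0, 1, 0)) (0, 0, 0)) (δ, 0, 0)) (δ, 1, 0) = (p.1, p.2.1, p.2.2 - 2 * δ) := by
  simp only [op, Prod.ext_iff]; refine ⟨?_, ?_, ?_⟩ <;> ring

theorem result : ∃ op : ℝ × ℝ × ℝ → ℝ × ℝ × ℝ → ℝ × ℝ × ℝ, ContDiff ℝ ⊤ (Function.uncurry op) ∧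
    IsQuandle op ∧ ConnectedSpace (ℝ × ℝ × ℝ) ∧ AlgConn op ∧
    ∀ (G : Type) [Group G] (f : ℝ × ℝ × ℝ → G), (∀ x y, f (op x y) = (f y)⁻¹ * f x * f y) →
      ¬ f.Injective := by
  refine ⟨op, ?_, ⟨fun x => ?_, fun y => Function.Involutive.bijective (inv y), fun x y z => ?_⟩,
    inferInstance, fun x y => ?_, fun G _ f hf h => ?_⟩
  · unfold op Function.uncurry; fun_prop
  · simp only [op, Prod.ext_iff]; refine ⟨?_, ?_, ?_⟩ <;> ring
  · simp only [op, Prod.ext_iff]; refine ⟨?_, ?_, ?_⟩ <;> ring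
  · let S : ℝ × ℝ × ℝ → Equiv.Perm (ℝ × ℝ × ℝ) := fun q => Function.Involutive.toPerm (op · q) (inv q)
    have hS : ∀ q, S q ∈ Subgroup.closure {g : Equiv.Perm (ℝ × ℝ × ℝ) | ∃ y, ∀ z, g z = op z y} :=
      fun q => Subgroup.subset_closure ⟨q, fun _ => rfl⟩
    let m : ℝ × ℝ × ℝ := ((x.1 + y.1) / 2, (x.2.1 + y.2.1) / 2, 0)
    let δ := ((op x m).2.2 - y.2.2) / 2
    refine ⟨S (δ, 1, 0) * S (δ, 0, 0) * S (0, 0, 0) * S (0, 1, 0) * S m,
      mul_mem (mul_mem (mul_mem (mul_mem (hS _) (hS _)) (hS _)) (hS _)) (hS _), (tr δ _).trans ?_⟩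
    change ((op x m).1, (op x m).2.1, (op x m).2.2 - 2 * δ) = y
    simp only [op, m, δ, Prod.ext_iff]; refine ⟨?_, ?_, ?_⟩ <;> ring
  · let u := f (0, 1, 0) * f (0, 0, 0) * f (1, 0, 0) * f (1, 1, 0)
    have h1 : ∀ t, f (0, 0, t - 2) = u⁻¹ * f (0, 0, t) * u := fun t => by
      have := congrArg f (tr 1 (0, 0, t))
      simp only [hf, mul_one] at this
      rw [← this]; simp only [u]; group
    have h2 : ∀ s t p, (f (0, 0, s))⁻¹ * f p * f (0, 0, s) = (f (0, 0, t))⁻¹ * f p * f (0, 0, t) :=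
      fun s t p => by rw [← hf, ← hf]; rfl
    have h3 : ∀ t p, Commute (f (0, 0, t) * f (0, 0, t)) (f p) := fun t p => by
      have := congrArg f (inv (0, 0, t) p)
      rw [hf, hf] at this
      rw [Commute, SemiconjBy]
      nth_rewrite 1 [← this]
      group
    obtain ⟨a, ha⟩ : ∃ a, f (0, 0, 0) = a := ⟨_, rfl⟩
    obtain ⟨c, hc⟩ : ∃ c, f (0, 0, 0 - 2) = c * a := ⟨f (0, 0, 0 - 2) * a⁻¹, by simp⟩
    have h4 : ∀ p, Commute c (f p) := fun p => by
      have := h2 0 (0 - 2) p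
      rw [ha, hc] at this
      have : f p = c⁻¹ * f p * c := by
        calc f p = a * (a⁻¹ * f p * a) * a⁻¹ := by group
          _ = _ := by rw [this]; group
      rw [Commute, SemiconjBy]
      nth_rewrite 1 [this]
      group
    have h5 : Commute c u := (((h4 _).mul_right (h4 _)).mul_right (h4 _)).mul_right (h4 _)
    have h6 : Commute (a * a) u :=
      ha ▸ (((h3 _ _).mul_right (h3 _ _)).mul_right (h3 _ _)).mul_right (h3 _ _)
    have h7 : c * a = u⁻¹ * a * u := by rw [← hc, h1, ha]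
    have h8 : c * c = 1 := by
      have e : c * a * (c * a) = a * a := by
        rw [h7]
        calc _ = u⁻¹ * (a * a * u) := by group
          _ = _ := by rw [h6]; group
      have e2 : a * c = c * a := (ha ▸ h4 _ : Commute c a).symm
      rw [mul_assoc, ← mul_assoc a, e2, mul_assoc, ← mul_assoc] at e
      exact mul_eq_right.1 e
    have h9 : f (0, 0, 0 - 2 - 2) = f (0, 0, 0) := by
      rw [h1, hc, ha]
      calc _ = (u⁻¹ * c) * a * u := by group
        _ = c * (u⁻¹ * a * u) := by rw [← h5.inv_right]; group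
        _ = a := by rw [← h7, ← mul_assoc, h8, one_mul]
    have := h h9
    norm_num at this

end Pool.Agent.Results.MP_a41668_al.Counter
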